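import Pool.Agent.Helper45.CF.GoalsC
import Pool.Agent.Helper98.CAR.ABS
import Pool.Agent.Helper61.CAR.ORTH
import Pool.Agent.Helper61.CAR.SWAP
import Pool.Agent.Helper61.CAR.COLV

/-!
# Project CF (MP_d97caa_an), second stage, packet ABF: absorption for matrices of functions
-/

set_option autoImplicit false

open scoped ComplexOrder ZeroAtInfty Topology ComplexConjugate NNReal
open TopologicalSpace Filter

namespace Pool.Agent.Helper14.CF2.ABF

open Pool.Agent.Helper34.CAR Pool.Agent.Helper39.CR Pool.Agent.Helper45.CF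

noncomputable section

theorem continuous_of_entries {X I B : Type} [TopologicalSpace X] [Fintype I] [DecidableEq I]
    [CStarAlgebra B] (f : X → Mt I B) (h : ∀ i j, Continuous fun x => f x i j) :
    Continuous f := by
  refine continuous_iff_continuousAt.2 fun x₀ => ?_
  refine tendsto_iff_norm_sub_tendsto_zero.2 ?_
  have h1 : Tendsto (fun x => ∑ i, ∑ j, ‖f x i j - f x₀ i j‖) (𝓝 x₀) (𝓝 0) := by
    have h2 : Continuous fun x => ∑ i, ∑ j, ‖f x i j - f x₀ i j‖ := by
      refine continuous_finsetSum _ fun i _ => continuous_finsetSum _ fun j _ => ?_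
      exact ((h i j).sub continuous_const).norm
    have h3 := h2.tendsto x₀
    simpa using h3
  refine squeeze_zero (fun x => norm_nonneg _) (fun x => ?_) h1
  have h4 := Mt.norm_le_sum (f x - f x₀)
  simpa using h4

theorem continuous_entry {I B : Type} [Fintype I] [DecidableEq I] [CStarAlgebra B] (i j : I) :
    Continuous fun a : Mt I B => a i j := by
  refine LipschitzWith.continuous (K := 1) (LipschitzWith.of_dist_le_mul fun a b => ?_)
  rw [dist_eq_norm, dist_eq_norm, NNReal.coe_one, one_mul]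
  exact Mt.norm_entry_le (a - b) i j

section Psi

variable {R Y I K L : Type} [CStarAlgebra R] [TopologicalSpace Y] [CompactSpace Y] [Fintype I]
  [DecidableEq I] [Fintype K] [DecidableEq K] [Fintype L] [DecidableEq L]

/-- Matrices of matrix valued functions as matrix valued functions, along a bijection of the
index sets. -/
def Psi (e : L ≃ K × I) : Mt K C(Y, Mt I R) →⋆ₐ[ℂ] C(Y, Mt L R) where
  toFun a := ⟨fun y => Mt.of fun p q => a (e p).1 (e q).1 y (e p).2 (e q).2, by
    refine continuous_of_entries _ fun p q => ?_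
    exact (continuous_entry (e p).2 (e q).2).comp (a (e p).1 (e q).1).continuous⟩
  map_one' := by
    ext y p q
    show (1 : Mt K C(Y, Mt I R)) (e p).1 (e q).1 y (e p).2 (e q).2 = (1 : Mt L R) p q
    rw [Mt.one_apply, Mt.one_apply]
    by_cases h1 : (e p).1 = (e q).1
    · rw [if_pos h1]
      show (1 : Mt I R) (e p).2 (e q).2 = _
      rw [Mt.one_apply]
      by_cases h2 : (e p).2 = (e q).2
      · rw [if_pos h2, if_pos (e.injective (Prod.ext h1 h2))]
      · rw [if_neg h2, if_neg fun h => h2 (by rw [h])]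
    · rw [if_neg h1, if_neg fun h => h1 (by rw [h])]
      rfl
  map_mul' a b := by
    ext y p q
    show (a * b) (e p).1 (e q).1 y (e p).2 (e q).2
      = ∑ l, a (e p).1 (e l).1 y (e p).2 (e l).2 * b (e l).1 (e q).1 y (e l).2 (e q).2
    rw [Mt.mul_apply, ContinuousMap.sum_apply, Mt.sum_apply,
      Equiv.sum_comp e fun x : K × I => a (e p).1 x.1 y (e p).2 x.2 * b x.1 (e q).1 y x.2 (e q).2,
      Fintype.sum_prod_type]
    refine Finset.sum_congr rfl fun k _ => ?_
    rw [ContinuousMap.mul_apply, Mt.mul_apply]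
  map_zero' := by
    ext y p q
    rfl
  map_add' a b := by
    ext y p q
    rfl
  commutes' c := by
    ext y p q
    show (algebraMap ℂ (Mt K C(Y, Mt I R)) c) (e p).1 (e q).1 y (e p).2 (e q).2
      = (algebraMap ℂ (Mt L R) c) p q
    rw [Mt.algebraMap_apply, Mt.algebraMap_apply]
    by_cases h1 : (e p).1 = (e q).1
    · rw [if_pos h1]
      show (algebraMap ℂ (Mt I R) c) (e p).2 (e q).2 = _
      rw [Mt.algebraMap_apply]
      by_cases h2 : (e p).2 = (e q).2
      · rw [if_pos h2, if_pos (e.injective (Prod.ext h1 h2))]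
      · rw [if_neg h2, if_neg fun h => h2 (by rw [h])]
    · rw [if_neg h1, if_neg fun h => h1 (by rw [h])]
      rfl
  map_star' a := by
    ext y p q
    rfl

theorem Psi_apply (e : L ≃ K × I) (a : Mt K C(Y, Mt I R)) (y : Y) (p q : L) :
    Psi e a y p q = a (e p).1 (e q).1 y (e p).2 (e q).2 := rfl

end Psi

/-- The bijection of the index sets. -/
def pos (I J₀ : Type) (m : ℕ) : I ⊕ ((Fin m × J₀) × I) ≃ Option (Fin m × J₀) × I where
  toFun x := match x with
    | .inl c => (none, c)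
    | .inr (z, c) => (some z, c)
  invFun x := match x with
    | (none, c) => .inl c
    | (some z, c) => .inr (z, c)
  left_inv x := by rcases x with c | ⟨z, c⟩ <;> rfl
  right_inv x := by rcases x with ⟨_ | z, c⟩ <;> rfl

section Sig

variable {B' J₀ I : Type} [CStarAlgebra B'] [Fintype J₀] [DecidableEq J₀] [Fintype I]
  [DecidableEq I]

/-- `m |I|` copies of `σ`. -/
def sg (m : ℕ) (σ : B' →⋆ₐ[ℂ] CStarMatrix J₀ J₀ ℂ) : B' →⋆ₐ[ℂ] Mt ((Fin m × J₀) × I) ℂ where
  toFun b := Mt.of fun x y => if x.1.1 = y.1.1 ∧ x.2 = y.2 then σ b x.1.2 y.1.2 else 0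
  map_one' := by
    ext x y
    rw [Mt.of_apply, map_one, Mt.one_apply, CStarMatrix.one_apply]
    obtain ⟨⟨i, p⟩, c⟩ := x
    obtain ⟨⟨j, r⟩, d⟩ := y
    by_cases h1 : i = j <;> by_cases h2 : p = r <;> by_cases h3 : c = d <;> simp [h1, h2, h3]
  map_mul' a b := by
    ext x y
    obtain ⟨⟨i, p⟩, c⟩ := x
    obtain ⟨⟨j, r⟩, d⟩ := y
    rw [Mt.mul_apply, Fintype.sum_prod_type, Fintype.sum_prod_type, map_mul]
    show (if i = j ∧ c = d then (σ a * σ b) p r else 0)
      = ∑ k, ∑ s, ∑ u, (if i = k ∧ c = u then σ a p s else 0) *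
        (if k = j ∧ u = d then σ b s r else 0)
    rw [Finset.sum_eq_single i]
    · have h : ∀ s, ∑ u, (if i = i ∧ c = u then σ a p s else 0) *
          (if i = j ∧ u = d then σ b s r else 0)
          = if i = j ∧ c = d then σ a p s * σ b s r else 0 := by
        intro s
        rw [Finset.sum_eq_single c]
        · rw [if_pos ⟨rfl, rfl⟩]
          split_ifs <;> simp
        · intro u _ hu
          rw [if_neg fun h => hu h.2.symm, zero_mul]
        · intro h
          exact absurd (Finset.mem_univ _) h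
      refine Eq.trans ?_ (Finset.sum_congr rfl fun s _ => (h s).symm)
      split_ifs
      · exact CStarMatrix.mul_apply
      · rw [Finset.sum_const_zero]
    · intro k _ hk
      refine Finset.sum_eq_zero fun s _ => Finset.sum_eq_zero fun u _ => ?_
      rw [if_neg fun h => hk h.1.symm, zero_mul]
    · intro h
      exact absurd (Finset.mem_univ _) h
  map_zero' := by
    ext x y
    rw [Mt.of_apply, map_zero, Mt.zero_apply]
    split_ifs <;> rfl
  map_add' a b := by
    ext x y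
    rw [Mt.add_apply, Mt.of_apply, Mt.of_apply, Mt.of_apply, map_add]
    split_ifs
    · rfl
    · rw [add_zero]
  commutes' c := by
    ext x y
    obtain ⟨⟨i, p⟩, c'⟩ := x
    obtain ⟨⟨j, r⟩, d⟩ := y
    rw [Mt.of_apply, AlgHomClass.commutes, Mt.algebraMap_apply, Algebra.algebraMap_eq_smul_one,
      CStarMatrix.smul_apply, CStarMatrix.one_apply]
    by_cases h1 : i = j <;> by_cases h2 : p = r <;> by_cases h3 : c' = d <;> simp [h1, h2, h3]
  map_star' a := by
    ext x y
    rw [Mt.star_apply, Mt.of_apply, Mt.of_apply, map_star]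
    by_cases h : x.1.1 = y.1.1 ∧ x.2 = y.2
    · rw [if_pos h, if_pos ⟨h.1.symm, h.2.symm⟩]
      rfl
    · rw [if_neg h, if_neg fun h' => h ⟨h'.1.symm, h'.2.symm⟩, star_zero]

theorem sg_apply (m : ℕ) (σ : B' →⋆ₐ[ℂ] CStarMatrix J₀ J₀ ℂ) (b : B')
    (x y : (Fin m × J₀) × I) :
    sg (I := I) m σ b x y = if x.1.1 = y.1.1 ∧ x.2 = y.2 then σ b x.1.2 y.1.2 else 0 := rfl

end Sig

theorem amp_nn {R J : Type} [CStarAlgebra R] [Fintype J] [DecidableEq J] (m : ℕ) (g : R)
    (a : CStarMatrix J J ℂ) : amp m g a none none = g := by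
  unfold amp
  rw [Mt.add_apply, Mt.sum_apply]
  show g + ∑ _j : Fin m, (0 : R) = g
  rw [Finset.sum_const_zero, add_zero]

theorem amp_ns {R J : Type} [CStarAlgebra R] [Fintype J] [DecidableEq J] (m : ℕ) (g : R)
    (a : CStarMatrix J J ℂ) (z : Fin m × J) : amp m g a none (some z) = 0 := by
  unfold amp
  rw [Mt.add_apply, Mt.sum_apply]
  show (0 : R) + ∑ _j : Fin m, (0 : R) = 0
  rw [Finset.sum_const_zero, add_zero]

theorem amp_sn {R J : Type} [CStarAlgebra R] [Fintype J] [DecidableEq J] (m : ℕ) (g : R)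
    (a : CStarMatrix J J ℂ) (z : Fin m × J) : amp m g a (some z) none = 0 := by
  unfold amp
  rw [Mt.add_apply, Mt.sum_apply]
  show (0 : R) + ∑ _j : Fin m, (0 : R) = 0
  rw [Finset.sum_const_zero, add_zero]

theorem amp_ss {R J : Type} [CStarAlgebra R] [Fintype J] [DecidableEq J] (m : ℕ) (g : R)
    (a : CStarMatrix J J ℂ) (i i' : Fin m) (p q : J) :
    amp m g a (some (i, p)) (some (i', q)) = if i = i' then algebraMap ℂ R (a p q) else 0 := by
  unfold amp
  rw [Mt.add_apply, Mt.sum_apply]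
  show (0 : R) + ∑ j : Fin m, (if i = j ∧ i' = j then algebraMap ℂ R (a p q) else 0) = _
  rw [zero_add]
  by_cases h : i = i'
  · subst h
    rw [if_pos rfl, Finset.sum_eq_single i]
    · rw [if_pos ⟨rfl, rfl⟩]
    · intro j _ hj
      rw [if_neg fun h => hj h.1.symm]
    · intro h
      exact absurd (Finset.mem_univ _) h
  · rw [if_neg h]
    refine Finset.sum_eq_zero fun j _ => ?_
    rw [if_neg]
    rintro ⟨rfl, h'⟩
    exact h h'.symm

theorem Psi_amp {B' R Y I J₀ : Type} [CStarAlgebra B'] [CStarAlgebra R] [TopologicalSpace Y]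
    [CompactSpace Y] [Fintype I] [DecidableEq I] [Fintype J₀] [DecidableEq J₀] (m : ℕ)
    (σ : B' →⋆ₐ[ℂ] CStarMatrix J₀ J₀ ℂ) (b : B') (G : C(Y, Mt I R)) (y : Y) :
    Psi (pos I J₀ m) (amp m G (σ b)) y = bd (G y) (scl R (sg (I := I) m σ) b) := by
  ext p q
  rw [Psi_apply]
  rcases p with c | ⟨⟨i, p⟩, c⟩ <;> rcases q with c' | ⟨⟨i', q⟩, c'⟩
  · show amp m G (σ b) none none y c c' = G y c c'
    rw [amp_nn]
  · show amp m G (σ b) none (some (i', q)) y c c' = 0
    rw [amp_ns]
    rfl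
  · show amp m G (σ b) (some (i, p)) none y c c' = 0
    rw [amp_sn]
    rfl
  · show amp m G (σ b) (some (i, p)) (some (i', q)) y c c'
      = algebraMap ℂ R (if i = i' ∧ c = c' then σ b p q else 0)
    rw [amp_ss]
    by_cases h1 : i = i'
    · rw [if_pos h1]
      show (algebraMap ℂ (Mt I R) (σ b p q)) c c' = _
      rw [Mt.algebraMap_apply]
      by_cases h2 : c = c'
      · rw [if_pos h2, if_pos ⟨h1, h2⟩]
      · rw [if_neg h2, if_neg fun h => h2 h.2, map_zero]
    · rw [if_neg h1, if_neg fun h => h1 h.1, map_zero]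
      rfl

/-- Choice of `δ`. -/
theorem exists_delta {B : Type} [CStarAlgebra B] (F : Finset B) (m : ℕ) {ε : ℝ} (hε : 0 < ε) :
    ∃ δ : ℝ, 0 < δ ∧ ∀ b ∈ F, ε / 2 + 6 * m * √(δ * (1 + 2 * ‖b‖)) < ε := by
  have hm : (0 : ℝ) < 6 * m + 1 := by positivity
  set T : ℝ := 1 + 2 * ∑ b ∈ F, ‖b‖ with hT
  have hS : 0 ≤ ∑ b ∈ F, ‖b‖ := Finset.sum_nonneg fun b _ => norm_nonneg b
  have hT0 : 0 < T := by linarith
  set ρ : ℝ := ε / 2 / (6 * m + 1) with hρ
  have hρ0 : 0 < ρ := by positivity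
  refine ⟨ρ ^ 2 / T, by positivity, fun b hb => ?_⟩
  have h1 : ‖b‖ ≤ ∑ b ∈ F, ‖b‖ := Finset.single_le_sum (f := fun b => ‖b‖)
    (fun b _ => norm_nonneg b) hb
  have h2 : ρ ^ 2 / T * (1 + 2 * ‖b‖) ≤ ρ ^ 2 := by
    rw [div_mul_eq_mul_div, div_le_iff₀ hT0]
    exact mul_le_mul_of_nonneg_left (by linarith) (by positivity)
  have h3 : √(ρ ^ 2 / T * (1 + 2 * ‖b‖)) ≤ ρ := Real.sqrt_le_iff.2 ⟨hρ0.le, h2⟩
  have h4 : 6 * (m : ℝ) * √(ρ ^ 2 / T * (1 + 2 * ‖b‖)) ≤ 6 * m * ρ :=
    mul_le_mul_of_nonneg_left h3 (by positivity)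
  have h5 : (6 * (m : ℝ) + 1) * ρ = ε / 2 := by
    rw [hρ]
    field_simp
  linarith

theorem t' (hABS : S_ABS) : S_ABF := by
  intro B B' R Y I _ _ _ _ _ _ _ inc hN m g F ε hε hg
  classical
  obtain ⟨δ, hδ, hFδ⟩ := exists_delta F m hε
  obtain ⟨J₀, _, _, σ, v, hv1, hv2⟩ := hN (F ∪ F.image star ∪ F.image (fun b => star b * b) ∪
    F.image (fun b => b * star b)) δ hδ
  obtain ⟨w₀, hw1, hw2, hw3⟩ := hABS B C(Y, Mt I R) m g J₀ (σ.comp inc) v F (ε / 2) δ (by linarith)
    hδ.le hv1 hg (fun b hb => by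
      refine ⟨(hv2 _ ?_).le, (hv2 _ ?_).le, (hv2 _ ?_).le, (hv2 _ ?_).le⟩
      · simp [hb]
      · simp only [Finset.mem_union, Finset.mem_image]
        exact Or.inl (Or.inl (Or.inr ⟨b, hb, rfl⟩))
      · simp only [Finset.mem_union, Finset.mem_image]
        exact Or.inl (Or.inr ⟨b, hb, rfl⟩)
      · simp only [Finset.mem_union, Finset.mem_image]
        exact Or.inr ⟨b, hb, rfl⟩)
  have hW1 : star (Psi (pos I J₀ m) w₀) * Psi (pos I J₀ m) w₀ = 1 := by
    rw [← map_star, ← map_mul, hw1, map_one]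
  have hW2 : Psi (pos I J₀ m) w₀ * star (Psi (pos I J₀ m) w₀) = 1 := by
    rw [← map_star, ← map_mul, hw2, map_one]
  refine ⟨(Fin m × J₀) × I, inferInstance, inferInstance, sg m σ, Psi (pos I J₀ m) w₀, hW1, hW2,
    fun b hb y => ?_⟩
  set W : C(Y, Mt (I ⊕ ((Fin m × J₀) × I)) R) := Psi (pos I J₀ m) w₀ with hW
  have hy1 : star (W y) * W y = 1 := by
    have := DFunLike.congr_fun hW1 y
    exact this
  have hy2 : W y * star (W y) = 1 := by
    have := DFunLike.congr_fun hW2 y
    exact this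
  have hmem : W y ∈ unitary (Mt (I ⊕ ((Fin m × J₀) × I)) R) := ⟨hy1, hy2⟩
  have hmem' : star (W y) ∈ unitary (Mt (I ⊕ ((Fin m × J₀) × I)) R) := Unitary.star_mem hmem
  have h1 := (hw3 b hb).trans_lt (hFδ b hb)
  have h2 : ‖Psi (pos I J₀ m) (w₀ * amp m (g 0 b) (σ (inc b)) * star w₀ -
      amp m (g m b) (σ (inc b)))‖ < ε :=
    (NonUnitalStarAlgHom.norm_apply_le (Psi (pos I J₀ m)) _).trans_lt h1
  have h3 := (ContinuousMap.norm_coe_le_norm (Psi (pos I J₀ m) (w₀ * amp m (g 0 b) (σ (inc b)) *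
    star w₀ - amp m (g m b) (σ (inc b)))) y).trans_lt h2
  rw [map_sub, map_mul, map_mul, map_star, ← hW] at h3
  have h4 : (W * Psi (pos I J₀ m) (amp m (g 0 b) (σ (inc b))) * star W -
      Psi (pos I J₀ m) (amp m (g m b) (σ (inc b)))) y
      = W y * bd (g 0 b y) (scl R ((sg (I := I) m σ).comp inc) b) * star (W y) -
        bd (g m b y) (scl R ((sg (I := I) m σ).comp inc) b) := by
    show W y * Psi (pos I J₀ m) (amp m (g 0 b) (σ (inc b))) y * star (W y) -
      Psi (pos I J₀ m) (amp m (g m b) (σ (inc b))) y = _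
    rw [Psi_amp, Psi_amp]
    rfl
  rw [h4] at h3
  have h5 : bd (g 0 b y) (scl R ((sg (I := I) m σ).comp inc) b) -
      star (W y) * bd (g m b y) (scl R ((sg (I := I) m σ).comp inc) b) * W y
      = star (W y) * (W y * bd (g 0 b y) (scl R ((sg (I := I) m σ).comp inc) b) * star (W y) -
        bd (g m b y) (scl R ((sg (I := I) m σ).comp inc) b)) * W y := by
    rw [mul_sub, sub_mul]
    congr 1
    calc bd (g 0 b y) (scl R ((sg (I := I) m σ).comp inc) b)
        = (star (W y) * W y) * bd (g 0 b y) (scl R ((sg (I := I) m σ).comp inc) b) *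
          (star (W y) * W y) := by rw [hy1, one_mul, mul_one]
      _ = _ := by simp only [mul_assoc]
  rw [h5, CStarRing.norm_mul_mem_unitary _ hmem, CStarRing.norm_mem_unitary_mul _ hmem']
  exact h3

theorem t : S_ABF := t' (Pool.Agent.Helper98.CAR.abs Pool.Agent.Helper61.CAR.orth
  Pool.Agent.Helper61.CAR.swap Pool.Agent.Helper61.CAR.colv)

end

end Pool.Agent.Helper14.CF2.ABF
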