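import Pool.Agent.Helper45.CF.GoalsD
import Pool.Agent.Helper27.CF2.ZQ

/-!
# Packet CF2-CON (project CAR FIELDS stage 2, MP_d97caa_an): contractible spaces
-/

open scoped ComplexOrder ZeroAtInfty Topology ComplexConjugate NNReal
open TopologicalSpace

namespace Pool.Agent.Helper14.CF2.CTR

open Pool.Agent.Helper34.CAR Pool.Agent.Helper39.CR Pool.Agent.Helper45.CF
open Pool.Agent.Helper27.CF2 (evh csh)

noncomputable section

theorem t : S_CON := by
  intro T K _ _ _ _ H c hH1 hH0 i x
  let s : unitInterval → C(K, K) := fun t => ⟨fun y => H (t, y), by fun_prop⟩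
  let h : unitInterval → (C(K, ℂ) →⋆ₙₐ[ℂ] C(K, ℂ)) := fun t => pull ℂ (s t)
  have hc : ∀ a, Continuous fun t => h t a := by
    intro a
    let F : C(unitInterval × K, ℂ) := a.comp H
    have : (fun t => h t a) = fun t => F.curry t := by
      funext t
      ext y
      rfl
    rw [this]
    exact F.curry.continuous
  have h1 : h 1 = NonUnitalStarAlgHom.id ℂ C(K, ℂ) := by
    refine DFunLike.ext _ _ fun a => ?_
    ext y
    show a (H (1, y)) = a y
    rw [hH1]
  have h0 : h 0 = (csh K).comp (evh c) := by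
    refine DFunLike.ext _ _ fun a => ?_
    ext y
    show a (H (0, y)) = a c
    rw [hH0]
  have hh := T.homotopy i C(K, ℂ) C(K, ℂ) h hc
  calc x = T.map i (NonUnitalStarAlgHom.id ℂ C(K, ℂ)) x := (T.map_id i C(K, ℂ) x).symm
    _ = T.map i (h 1) x := by rw [h1]
    _ = T.map i (h 0) x := by rw [hh]
    _ = T.map i (evh c) (T.map i (csh K) x) := by
        rw [h0, T.map_comp]
    _ = 0 := by rw [T.point i (T.map i (csh K) x), map_zero]

end

end Pool.Agent.Helper14.CF2.CTR
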